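import Pool.Agent.W888.UG.KV

set_option autoImplicit false

/-!
# Branch-and-cut with semidefinite bounds for gap unique games needs exponential size

The definitions used in the statement are in `Pool/Agent/W888/UG/Model.lean` and
`Pool/Agent/W888/UG/Ent.lean`:

* `Relax s t π ε`: the points `μ` (numbers `μ w a`, vertices `w : U ⊕ V`, labels `a`) which are the
  squared lengths of vectors solving the semidefinite relaxation, with all triangle inequalities, of
  the unique game with edges `(s e, t e)` and constraints `π e`, with value at least `1 - ε`;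
* `lab l`: the indicator vector of a labelling `l`;
* `Tree`: branch-and-cut trees; `Tree.leaves`: the number of leaves; `Tree.Proves`: at every leaf no
  point of the relaxation satisfies all the branches above it;
* `SplitProof`: cutting-plane proofs with split cuts, as lists of cuts.

A node of a tree branches on an integer disjunction (`c ≤ b` or `c ≥ b + 1`, integral `c`, `b`) or
on a real one (`c < b` or `c ≥ b`, arbitrary real `c`, `b`); the latter make it possible to derive
and use cuts.
-/

namespace Pool.Agent.Results.MP_325f1f_lc.BranchAndCutSDP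

open Finset Pool.Agent.W888.UG

/-- (1) If the uniform point (all coordinates `1 / |A|`) belongs to the relaxation for `ε` and all
degrees are at most `Δ`, then every branch-and-cut proof that the value is less than `1 - ε - η` has
at least `exp (η ^ 3 |E| / (32 |A| Δ))` leaves.

(2) For every `0 < ε < 1` there are `c > 0` and `r < 1` such that for all `j ≥ 1` there is `Δ` such
that for all `m ≥ 1` there is a unique game with `N = m 2 ^ 256 ^ j` vertices on each side,
`q = 256 ^ j` labels, degrees at most `Δ` and value at most `2 r ^ j`, such that every list of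
convex sets which cover all labellings and contain no point of the relaxation for `ε` has at least
`exp (c N / q ^ 2)` members, every branch-and-cut proof that the value is less than `1 - ε` has
at least `exp (c N / q ^ 2)` leaves, and every proof with `L` split cuts has
`2 L + 1 ≥ exp (c N / q ^ 2)`; branch-and-cut proofs exist if `2 r ^ j < 1 - ε`. -/
theorem result :
    (∀ (U V E A : Type) [Fintype U] [Fintype V] [Fintype E] [Fintype A] [Nonempty A]
      [DecidableEq U] [DecidableEq V] (s : E → U) (t : E → V) (π : E → Equiv.Perm A) (Δ : ℕ)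
      (ε η : ℝ), 0 < Δ → (∀ u, (univ.filter fun e => s e = u).card ≤ Δ) →
      (∀ v, (univ.filter fun e => t e = v).card ≤ Δ) → 0 ≤ ε → 0 < η → η ≤ 1 →
      (fun _ _ => 1 / (Fintype.card A : ℝ)) ∈ Relax s t π ε →
      ∀ T : Tree (U ⊕ V) A, T.Proves (Relax s t π (ε + η)) Set.univ →
        Real.exp (η ^ 3 * Fintype.card E / (32 * Fintype.card A * Δ)) ≤ T.leaves) ∧
    (∀ ε : ℝ, 0 < ε → ε < 1 →
      ∃ c r : ℝ, 0 < c ∧ 0 < r ∧ r < 1 ∧ ∀ j : ℕ, 1 ≤ j → ∃ Δ : ℕ, ∀ m : ℕ, 1 ≤ m →
        ∃ (U V E A : Type) (_ : Fintype U) (_ : Fintype V) (_ : Fintype E) (_ : Nonempty E)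
          (_ : Fintype A) (_ : DecidableEq U) (_ : DecidableEq V) (_ : DecidableEq A) (s : E → U)
          (t : E → V) (π : E → Equiv.Perm A),
          Fintype.card A = 256 ^ j ∧
          Fintype.card U = m * 2 ^ 256 ^ j ∧ Fintype.card V = m * 2 ^ 256 ^ j ∧
          (∀ u, (univ.filter fun e => s e = u).card ≤ Δ) ∧
          (∀ v, (univ.filter fun e => t e = v).card ≤ Δ) ∧
          (∀ (L : U → A) (M : V → A), ((univ.filter fun e =>
            π e (L (s e)) = M (t e)).card : ℝ) ≤ 2 * r ^ j * Fintype.card E) ∧
          (∀ F : List (Set (U ⊕ V → A → ℝ)), (∀ C ∈ F, Convex ℝ C) →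
            (∀ C ∈ F, ∀ μ ∈ C, μ ∉ Relax s t π ε) → (∀ l : U ⊕ V → A, ∃ C ∈ F, lab l ∈ C) →
            Real.exp (c * (m * 2 ^ 256 ^ j) / (256 ^ j) ^ 2) ≤ F.length) ∧
          (∀ T : Tree (U ⊕ V) A, T.Proves (Relax s t π ε) Set.univ →
            Real.exp (c * (m * 2 ^ 256 ^ j) / (256 ^ j) ^ 2) ≤ T.leaves) ∧
          (∀ l, SplitProof (Relax s t π ε) l Set.univ →
            Real.exp (c * (m * 2 ^ 256 ^ j) / (256 ^ j) ^ 2) ≤ 2 * l.length + 1) ∧
          (2 * r ^ j < 1 - ε →
            ∃ T : Tree (U ⊕ V) A, T.Proves (Relax s t π ε) Set.univ)) := by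
  refine ⟨?_, fun ε h0 h1 => kv_main ε h0 h1⟩
  intro U V E A _ _ _ _ _ _ _ s t π Δ ε η hΔ hs ht hε hη hη1 h T hT
  classical
  exact law_tree s t π Δ hΔ hs ht ε η hε hη hη1 h T hT

end Pool.Agent.Results.MP_325f1f_lc.BranchAndCutSDP
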