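import Pool.Agent.W906.MU.Final
import Pool.Agent.W906.MU.Perfect

/-!
# Unique games with imperfect completeness are hard for circuits of monotone real gates

A unique game is given by its set of constraints (a left vertex, a right vertex and a permutation of
the alphabet `Fin q`), and the circuits read the indicators of the constraints.  For every alphabet
size `q ≥ 2`, every soundness `δ > 1 / q` and every `ε ≥ N ^ (-1/139)`: randomised circuits of
monotone real gates need size `2 ^ (N ^ (1/139))` to tell the games with `m` constraints and value
at most `δ` from the games with at least `m` constraints of which some labelling violates at most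
`ε m` (so that their value is at least `1 - ε`); some monotone function tells them apart.  With
completeness one, that is `ε = 0`, label propagation is a monotone circuit of polynomial size.

Proof (`Pool/Agent/W906/MU`).  The NO instances are random sparse games: the vertices are placed
in random vertices of clouds, and every left vertex has `D` random constraints; their value is close
to `1 / q`.  The YES instances: few random vertices get a random status (a label or a star, the star
being rarer) and few constraints are noise; all constraints between vertices with a status that are
noise or satisfied by the statuses are present (a star satisfies everything).  So few constraints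
are violated.  Small circuits are approximated by level functions on sets of statuses and noise
items, which are closed under rounds of random marking.  A Kraft inequality bounds the critical
kernels (sets of constraints and vertices) of a closed level function.  Its proof extends statuses
of a part of a kernel to the whole: the vertices of large degree in the two-core get stars, a
maximal matching between the rest of the two-core becomes noise, and what is left is peeled off.
-/

namespace Pool.Agent.Results.MP_325f1f_lc.MonotoneCircuits

open Pool.Agent.W906.MU

/-- Let `q ≥ 2` and `1 / q < δ < 1`.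
(A) For all large `N` there is `m > 0` such that for all `ε ≥ N ^ (-1/139)`: (1) every randomised
circuit (finite family) of monotone real gates that separates, on the unique games with `N + N`
vertices and alphabet `Fin q`, the games with exactly `m` constraints and value at most `δ` from the
games with at least `m` constraints of which some labelling violates at most `ε m`, has a member
with at least `2 ^ (N ^ (1/139))` gates; (2) if `ε + δ < 1` then a monotone function is one on the
former and zero on the latter games.
(B) For `ε = 0` one circuit with at most `C (N + 1) ^ 4` gates separates, for all `N` and `m > 0`;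
`C` does not depend on `N` and `m`. -/
theorem result (q : ℕ) (hq : 2 ≤ q) (δ : ℝ) (hδ : 1 / (q : ℝ) < δ) (hδ1 : δ < 1) :
    (∃ N0 : ℕ, ∀ N : ℕ, N0 ≤ N → ∃ m : ℕ, 0 < m ∧ ∀ ε : ℝ, (N : ℝ) ^ (-(1 / 139) : ℝ) ≤ ε →
      (∀ (Ω : Type) [Fintype Ω] [Nonempty Ω] (l : Ω → List (Game N q → ℝ)),
        (∀ ω, Prog (inputs N q) (l ω)) → Separates m δ ε l →
        ∃ ω, (2 : ℝ) ^ ((N : ℝ) ^ (1 / 139 : ℝ)) ≤ (l ω).length) ∧
      (ε + δ < 1 → ∃ F : Game N q → ℝ, (∀ I J, I ⊆ J → F I ≤ F J) ∧
        ∀ I, (NoI m δ I → F I = 1) ∧ (YesI m ε I → F I = 0))) ∧
    ∃ C : ℕ, ∀ N m : ℕ, 0 < m → ∃ l : List (Game N q → ℝ), Prog (inputs N q) l ∧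
      l.length ≤ C * (N + 1) ^ 4 ∧ Separates m δ 0 (fun _ : Unit => l) := by
  classical
  constructor
  · obtain ⟨N0, hN0⟩ := lower q (by omega) δ hδ
    refine ⟨N0, fun N hN => ?_⟩
    obtain ⟨m, hm, h⟩ := hN0 N hN
    exact ⟨m, hm, fun ε hε => ⟨h ε hε, fun h1 => monotone_dec N q m δ ε hm h1⟩⟩
  · obtain ⟨C, hC⟩ := perfect q
    refine ⟨C, fun N m hm => ?_⟩
    obtain ⟨l, hl, hlen, f, hf, hfI⟩ := hC N
    have hm0 : (0 : ℝ) < m := by exact_mod_cast hm
    refine ⟨l, hl, hlen, fun _ => f, fun _ => 1, fun _ => hf, fun I hI => ?_, fun I hI => ?_⟩
    · have h1 : ¬ Satisfiable I := by
        rintro ⟨g, h, hgh⟩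
        have h2 := hI.2 g h
        rw [Finset.filter_true_of_mem hgh, hI.1] at h2
        nlinarith
      have h3 := (hfI I).2 h1
      simp [h3]
    · have h1 : Satisfiable I := by
        obtain ⟨-, g, h, hgh⟩ := hI
        rw [zero_mul] at hgh
        have h2 : (I.filter fun e => ¬ Sat g h e).card = 0 := by
          have h3 : ((I.filter fun e => ¬ Sat g h e).card : ℝ) = 0 :=
            le_antisymm hgh (Nat.cast_nonneg _)
          exact_mod_cast h3
        rw [Finset.card_eq_zero, Finset.filter_eq_empty_iff] at h2
        refine ⟨g, h, fun e he => ?_⟩
        have h4 := h2 he
        exact not_not.1 h4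
      have h3 := (hfI I).1 h1
      simp [h3]

end Pool.Agent.Results.MP_325f1f_lc.MonotoneCircuits
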