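import Mathlib
import Pool.Agent.W939.PC.Main
import Pool.Agent.W939.PC.Enc

/-!
# Unique games and polynomial calculus

For every alphabet size `q ≥ 2` and every `δ > 1 / q` there are unique games of value at most `δ`
for which polynomial calculus resolution over every field needs linear degree and exponentially
many monomials to refute that all but a fraction `ε` of the constraints can be satisfied.
-/

namespace Pool.Agent.Results.MP_325f1f_lc.PolynomialCalculus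

open Finset Pool.Agent.W939.PC

theorem params (q c k n : ℕ) (hk1 : 1 ≤ k) (hc1 : 1 ≤ c) (hn : n = 103 + 9 * c + q) :
    ∃ γ a : ℝ, 0 < γ ∧ γ ≤ 1 ∧
      γ * (4 * (c * ((k * 2 : ℕ) : ℝ) * (((k * 2 : ℕ) : ℝ) + 1) *
        Real.exp 1 ^ (k * 2 + 1))) ≤ 1 ∧
      ((k * 2 : ℕ) : ℝ) * a = γ ^ 4 ∧ 0 < a ∧ a ≤ 1 ∧
      (16384 * (k : ℝ) ^ 2 * (q + c * (k : ℝ) ^ 2)) * (a⁻¹) ^ 2 ≤ Real.exp (n * k) := by
  have hk1' : (1 : ℝ) ≤ k := by exact_mod_cast hk1
  set E : ℝ := Real.exp k with hE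
  have hEk : (k : ℝ) + 1 ≤ E := Real.add_one_le_exp _
  have hE2 : (2 : ℝ) ≤ E := by linarith
  have hE1 : (1 : ℝ) ≤ E := by linarith
  have hE0 : (0 : ℝ) < E := by linarith
  have hEpow : ∀ j : ℕ, E ^ j = Real.exp (j * k) := by
    intro j; rw [hE, ← Real.exp_nat_mul]
  have hnat : ∀ j : ℕ, (j : ℝ) ≤ E ^ j := by
    intro j
    rw [hEpow]
    have h1 : (j : ℝ) + 1 ≤ Real.exp j := Real.add_one_le_exp _
    have h2 : Real.exp j ≤ Real.exp (j * k) := by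
      apply Real.exp_le_exp.2
      exact le_mul_of_one_le_right (Nat.cast_nonneg _) hk1'
    linarith
  have f1 : (4 : ℝ) ≤ E ^ 2 := by nlinarith
  have f2 : (c : ℝ) ≤ E ^ c := hnat c
  have f3 : ((k * 2 : ℕ) : ℝ) ≤ E ^ 2 := by
    push_cast
    nlinarith
  have f4 : ((k * 2 : ℕ) : ℝ) + 1 ≤ E ^ 3 := by
    have h1 : E ^ 2 * 2 ≤ E ^ 2 * E := mul_le_mul_of_nonneg_left hE2 (by positivity)
    have h2 : E ^ 3 = E ^ 2 * E := by ring
    have h3 : (1 : ℝ) ≤ E ^ 2 := by linarith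
    rw [h2]
    linarith
  have f5 : Real.exp 1 ^ (k * 2 + 1) ≤ E ^ 3 := by
    rw [hEpow, ← Real.exp_nat_mul]
    apply Real.exp_le_exp.2
    push_cast
    linarith
  have f6 : (16384 * (k : ℝ) ^ 2 * (q + c * (k : ℝ) ^ 2)) ≤ E ^ (19 + q + c) := by
    have g1 : (16384 : ℝ) ≤ E ^ 14 := by
      have h1 : (2 : ℝ) ^ 14 ≤ E ^ 14 := pow_le_pow_left₀ (by norm_num) hE2 14
      have h2 : (2 : ℝ) ^ 14 = 16384 := by norm_num
      linarith
    have g2 : (k : ℝ) ^ 2 ≤ E ^ 2 := pow_le_pow_left₀ (by positivity) (by linarith) 2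
    have g3 : (q : ℝ) ≤ E ^ (q + c + 2) :=
      (hnat q).trans (pow_le_pow_right₀ hE1 (by omega))
    have g4 : (c : ℝ) * (k : ℝ) ^ 2 ≤ E ^ (q + c + 2) := by
      have h1 : (c : ℝ) * (k : ℝ) ^ 2 ≤ E ^ c * E ^ 2 :=
        mul_le_mul f2 g2 (by positivity) (by positivity)
      rw [← pow_add] at h1
      exact h1.trans (pow_le_pow_right₀ hE1 (by omega))
    have g5 : (q : ℝ) + c * (k : ℝ) ^ 2 ≤ E ^ (q + c + 3) := by
      have h1 : E ^ (q + c + 3) = E ^ (q + c + 2) * E := by rw [← pow_succ]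
      have h2 : E ^ (q + c + 2) * 2 ≤ E ^ (q + c + 2) * E :=
        mul_le_mul_of_nonneg_left hE2 (by positivity)
      rw [h1]
      linarith
    have g6 : 16384 * (k : ℝ) ^ 2 ≤ E ^ 14 * E ^ 2 :=
      mul_le_mul g1 g2 (by positivity) (by positivity)
    have g7 : (16384 * (k : ℝ) ^ 2 * (q + c * (k : ℝ) ^ 2)) ≤ E ^ 14 * E ^ 2 * E ^ (q + c + 3) :=
      mul_le_mul g6 g5 (by positivity) (by positivity)
    refine g7.trans (le_of_eq ?_)
    rw [← pow_add, ← pow_add]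
    congr 1
    ring
  have hc1' : (1 : ℝ) ≤ c := by exact_mod_cast hc1
  have hkk : (1 : ℝ) ≤ ((k * 2 : ℕ) : ℝ) := by push_cast; linarith
  have hexp1 : (1 : ℝ) ≤ Real.exp 1 ^ (k * 2 + 1) := by
    apply one_le_pow₀
    have := Real.add_one_le_exp (1 : ℝ); linarith
  set W : ℝ := 4 * (c * ((k * 2 : ℕ) : ℝ) * (((k * 2 : ℕ) : ℝ) + 1) *
    Real.exp 1 ^ (k * 2 + 1)) with hW
  have hW1 : 1 ≤ W := by
    have h1 : (1 : ℝ) ≤ c * ((k * 2 : ℕ) : ℝ) := one_le_mul_of_one_le_of_one_le hc1' hkk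
    have h2 : (1 : ℝ) ≤ c * ((k * 2 : ℕ) : ℝ) * (((k * 2 : ℕ) : ℝ) + 1) :=
      one_le_mul_of_one_le_of_one_le h1 (by linarith)
    have h3 := one_le_mul_of_one_le_of_one_le h2 hexp1
    rw [hW]; linarith
  have hWE : W ≤ E ^ (10 + c) := by
    have h1 : (c : ℝ) * ((k * 2 : ℕ) : ℝ) ≤ E ^ c * E ^ 2 :=
      mul_le_mul f2 f3 (by positivity) (by positivity)
    have h2 : (c : ℝ) * ((k * 2 : ℕ) : ℝ) * (((k * 2 : ℕ) : ℝ) + 1) ≤ E ^ c * E ^ 2 * E ^ 3 :=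
      mul_le_mul h1 f4 (by positivity) (by positivity)
    have h3 : (c : ℝ) * ((k * 2 : ℕ) : ℝ) * (((k * 2 : ℕ) : ℝ) + 1) *
        Real.exp 1 ^ (k * 2 + 1) ≤ E ^ c * E ^ 2 * E ^ 3 * E ^ 3 :=
      mul_le_mul h2 f5 (by positivity) (by positivity)
    have h4 : W ≤ E ^ 2 * (E ^ c * E ^ 2 * E ^ 3 * E ^ 3) := by
      rw [hW]
      exact mul_le_mul f1 h3 (by positivity) (by positivity)
    refine h4.trans (le_of_eq ?_)
    ring
  have hW0 : 0 < W := by linarith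
  set γ : ℝ := W⁻¹ with hγdef
  have hγ0 : 0 < γ := inv_pos.2 hW0
  have hγ1 : γ ≤ 1 := inv_le_one_of_one_le₀ hW1
  have hk0 : (0 : ℝ) < ((k * 2 : ℕ) : ℝ) := by linarith
  set a : ℝ := γ ^ 4 / ((k * 2 : ℕ) : ℝ) with ha
  have ha0 : 0 < a := by positivity
  have ha1 : a ≤ 1 := by
    rw [ha, div_le_one hk0]
    exact (pow_le_one₀ hγ0.le hγ1).trans hkk
  have hainv : a⁻¹ ≤ E ^ (42 + 4 * c) := by
    have h1 : a⁻¹ = ((k * 2 : ℕ) : ℝ) * W ^ 4 := by
      rw [ha, hγdef]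
      field_simp
    rw [h1]
    have h2 : ((k * 2 : ℕ) : ℝ) * W ^ 4 ≤ E ^ 2 * (E ^ (10 + c)) ^ 4 :=
      mul_le_mul f3 (pow_le_pow_left₀ hW0.le hWE 4) (by positivity) (by positivity)
    refine h2.trans (le_of_eq ?_)
    rw [← pow_mul, ← pow_add]
    congr 1
    ring
  have hkey : (16384 * (k : ℝ) ^ 2 * (q + c * (k : ℝ) ^ 2)) * (a⁻¹) ^ 2 ≤ E ^ n := by
    have h1 : (16384 * (k : ℝ) ^ 2 * (q + c * (k : ℝ) ^ 2)) * (a⁻¹) ^ 2 ≤
        E ^ (19 + q + c) * (E ^ (42 + 4 * c)) ^ 2 :=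
      mul_le_mul f6 (pow_le_pow_left₀ (by positivity) hainv 2) (by positivity) (by positivity)
    refine h1.trans (le_of_eq ?_)
    rw [← pow_mul, ← pow_add, hn]
    congr 1
    ring
  refine ⟨γ, a, hγ0, hγ1, ?_, ?_, ha0, ha1, ?_⟩
  · rw [hγdef]; exact (inv_mul_cancel₀ hW0.ne').le
  · rw [ha]; field_simp
  · rw [← hEpow]; exact hkey

theorem log_two_le_one : Real.log 2 ≤ 1 := by
  have := Real.log_two_lt_d9; linarith

theorem result :
    (∀ (F : Type) [Field F] (N q M t : ℕ) (G : Fin M → Con N q),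
      (∃ x : Lit N q M t → F, ∀ p, CountAx F G t p → MvPolynomial.eval x p = 0) ↔
        ∃ y : Fin N ⊕ Fin N → Fin q, (univ.filter (fun i => Vio (G i) y)).card ≤ t) ∧
    ∀ (q : ℕ), 2 ≤ q → ∀ δ : ℝ, 1 / (q : ℝ) < δ →
      ∃ K : ℝ, 0 < K ∧ ∀ ε : ℝ, 0 < ε → ε ≤ 1 → ∀ N : ℕ, Real.exp (K / ε) ≤ N →
        ∃ M : ℕ, 0 < M ∧ (M : ℝ) ≤ K / ε * N ∧ ∃ G : Fin M → Con N q,
          (∀ y : Fin N ⊕ Fin N → Fin q,
            ((univ.filter (fun i => ¬ Vio (G i) y)).card : ℝ) ≤ δ * M) ∧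
          ∀ (F : Type) [Field F] (S : Finset (Lit N q M ⌊ε * M⌋₊ →₀ ℕ)),
            Derives {p | CountAx F G ⌊ε * M⌋₊ p} (S : Set (Lit N q M ⌊ε * M⌋₊ →₀ ℕ)) 1 →
              (∃ m ∈ S, Real.exp (-(K / ε)) * N ≤ (m.degree : ℝ)) ∧
                (2 : ℝ) ^ (Real.exp (-(K / ε)) * N) ≤ S.card := by
  refine ⟨fun F _ N q M t G => countAx_sat G, ?_⟩
  intro q hq δ hδ
  have hq0 : 0 < q := by omega
  obtain ⟨τ, ρ, hτ, hρ, hρ0, hρ1⟩ := exists_rho hq0 hδ
  have hq2 : (0 : ℝ) < ((q : ℝ) ^ 2)⁻¹ := by positivity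
  obtain ⟨c, hc⟩ := exists_pow_lt_of_lt_one hq2 hρ1
  have hc1 : 1 ≤ c := by
    by_contra h
    have h0 : c = 0 := by omega
    rw [h0, pow_zero] at hc
    have h1 : (1 : ℝ) ≤ (q : ℝ) ^ 2 := one_le_pow₀ (by exact_mod_cast hq0)
    have h2 : ((q : ℝ) ^ 2)⁻¹ ≤ 1 := inv_le_one_of_one_le₀ h1
    linarith
  obtain ⟨n, hn⟩ : ∃ n : ℕ, n = 103 + 9 * c + q := ⟨_, rfl⟩
  refine ⟨3 * n, by rw [hn]; positivity, ?_⟩
  intro ε hε hε1 N hNX
  obtain ⟨k, hkdef⟩ : ∃ k : ℕ, k = ⌈2 / ε⌉₊ := ⟨_, rfl⟩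
  have hk2 : 2 / ε ≤ k := by rw [hkdef]; exact Nat.le_ceil _
  have hk : 2 ≤ ε * k := by
    rw [div_le_iff₀ hε] at hk2; linarith
  have hk3 : (k : ℝ) ≤ 3 / ε := by
    have h1 : (k : ℝ) < 2 / ε + 1 := by
      rw [hkdef]; exact Nat.ceil_lt_add_one (by positivity)
    have h2 : 1 ≤ 1 / ε := by rw [le_div_iff₀ hε]; linarith
    have h3 : 3 / ε = 2 / ε + 1 / ε := by ring
    linarith
  have hk2n : 2 ≤ k := by
    have h1 : (2 : ℝ) ≤ 2 / ε := by
      rw [le_div_iff₀ hε]; linarith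
    exact_mod_cast h1.trans hk2
  have hk1 : 1 ≤ k := by omega
  have hk1' : (1 : ℝ) ≤ k := by exact_mod_cast hk1
  obtain ⟨γ, a, hγ0, hγ1, hγ, haγ, ha0, ha1, hkey⟩ := params q c k n hk1 hc1 hn
  obtain ⟨D0, hD0⟩ : ∃ D0 : ℝ, D0 = 16384 * (k : ℝ) ^ 2 * (q + c * (k : ℝ) ^ 2) := ⟨_, rfl⟩
  rw [← hD0] at hkey
  have hq' : (2 : ℝ) ≤ q := by exact_mod_cast hq
  have hc1' : (1 : ℝ) ≤ c := by exact_mod_cast hc1
  have hkk1 : (k : ℝ) ≤ (k : ℝ) ^ 2 := by nlinarith only [hk1']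
  have hck : (1 : ℝ) ≤ q + c * (k : ℝ) ^ 2 := by
    have : (0 : ℝ) ≤ c * (k : ℝ) ^ 2 := by positivity
    linarith only [this, hq']
  have hD1 : 128 * (k : ℝ) ≤ D0 := by
    rw [hD0]
    have h1 : 16384 * (k : ℝ) ^ 2 ≤ 16384 * (k : ℝ) ^ 2 * (q + c * (k : ℝ) ^ 2) :=
      le_mul_of_one_le_right (by positivity) hck
    linarith only [h1, hkk1, hk1']
  have hDpos : 0 < D0 := by linarith only [hD1, hk1']
  have hEX : Real.exp (n * k) ≤ Real.exp (3 * n / ε) := by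
    apply Real.exp_le_exp.2
    have h1 : (n : ℝ) * k ≤ n * (3 / ε) := mul_le_mul_of_nonneg_left hk3 (Nat.cast_nonneg _)
    have h2 : (n : ℝ) * (3 / ε) = 3 * n / ε := by ring
    linarith only [h1, h2]
  obtain ⟨X, hX⟩ : ∃ X : ℝ, X = Real.exp (3 * n / ε) := ⟨_, rfl⟩
  rw [← hX] at hNX
  have hX0 : 0 < X := by rw [hX]; exact Real.exp_pos _
  have hXkey : D0 * (a⁻¹) ^ 2 ≤ X := by rw [hX]; exact hkey.trans hEX
  have hAX : Real.exp (-(3 * n / ε)) = X⁻¹ := by rw [Real.exp_neg, hX]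
  rw [hAX]
  have hA : X⁻¹ ≤ a ^ 2 / D0 := by
    rw [inv_le_comm₀ hX0 (by positivity)]
    refine le_trans (le_of_eq ?_) hXkey
    rw [inv_div, inv_pow]
    ring
  have hAa : X⁻¹ ≤ a / (128 * k) := by
    refine hA.trans ?_
    rw [div_le_div_iff₀ hDpos (by positivity)]
    have h1 : a ^ 2 ≤ a := by
      rw [pow_two]; exact mul_le_of_le_one_left ha0.le ha1
    exact mul_le_mul h1 hD1 (by positivity) ha0.le
  have haX : 128 * k / a ≤ X := by
    have := (inv_le_comm₀ hX0 (by positivity)).1 hAa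
    rw [inv_div] at this
    exact this
  have hN0' : (0 : ℝ) < N := lt_of_lt_of_le hX0 hNX
  have hN0 : 0 < N := by exact_mod_cast hN0'
  have hN1' : (1 : ℝ) ≤ N := by exact_mod_cast hN0
  have haN : 128 * k ≤ a * N := by
    have : 128 * k / a ≤ N := haX.trans hNX
    rw [div_le_iff₀ ha0] at this
    linarith only [this]
  obtain ⟨s, hsdef⟩ : ∃ s : ℕ, s = ⌊a * N⌋₊ := ⟨_, rfl⟩
  obtain ⟨e, hedef⟩ : ∃ e : ℕ, e = ⌊a * N / (64 * k)⌋₊ := ⟨_, rfl⟩
  have hs1 : (s : ℝ) ≤ a * N := by rw [hsdef]; exact Nat.floor_le (by positivity)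
  have hs2 : a * N - 1 < s := by rw [hsdef]; exact Nat.sub_one_lt_floor _
  have he1 : (e : ℝ) ≤ a * N / (64 * k) := by rw [hedef]; exact Nat.floor_le (by positivity)
  have he1' : (e : ℝ) * (64 * k) ≤ a * N := by
    rwa [le_div_iff₀ (by positivity)] at he1
  have he2n : 2 ≤ e := by
    rw [hedef]
    apply Nat.le_floor
    rw [le_div_iff₀ (by positivity)]
    push_cast
    linarith only [haN]
  have he3 : a * N / (128 * k) ≤ e := by
    have h1 : a * N / (64 * k) - 1 < e := by rw [hedef]; exact Nat.sub_one_lt_floor _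
    have h2 : a * N / (64 * k) = 2 * (a * N / (128 * k)) := by
      field_simp
      ring
    have h3 : 1 ≤ a * N / (128 * k) := by
      rw [le_div_iff₀ (by positivity)]
      linarith only [haN]
    linarith only [h1, h2, h3]
  have hlog := log_two_le_one
  obtain ⟨n1, hn1⟩ : ∃ n1 : ℕ, n1 = 4 * N * (q + c * k ^ 2) := ⟨_, rfl⟩
  have hn1' : (n1 : ℝ) = 4 * N * (q + c * (k : ℝ) ^ 2) := by rw [hn1]; push_cast; ring
  have hckN : 1 ≤ c * N * k := by
    have h1 : 0 < c * N * k := by positivity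
    omega
  obtain ⟨G, hG1, hG2⟩ := core_bound (q := q) (k := k) (c := c) (N := N) (s := s) (e := e)
    (t := ⌊ε * ((c * N * k : ℕ) : ℝ)⌋₊) (n := n1)
    (δ := δ) (τ := τ) (ρ := ρ) (γ := γ) hq hτ hρ hρ0 hρ1 hc hk2n
    (by
      apply Nat.le_floor
      push_cast
      have h1 : (2 : ℝ) * (c * N) ≤ (ε * k) * (c * N) :=
        mul_le_mul_of_nonneg_right hk (by positivity)
      linarith only [h1])
    hN0 hγ0 hγ1 hγ
    (by
      have h1 : ((k * 2 * s : ℕ) : ℝ) = ((k * 2 : ℕ) : ℝ) * s := by push_cast; ring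
      rw [h1]
      have h2 : ((k * 2 : ℕ) : ℝ) * s ≤ ((k * 2 : ℕ) : ℝ) * (a * N) :=
        mul_le_mul_of_nonneg_left hs1 (Nat.cast_nonneg _)
      refine h2.trans (le_of_eq ?_)
      rw [← haγ]
      ring)
    he2n
    (by
      have : (4 * (4 * e * (2 * k) + 2 * k) : ℝ) ≤ s := by
        have h1 : (4 * (4 * e * (2 * k) + 2 * k) : ℝ) = (e * (64 * k)) / 2 + 8 * k := by ring
        rw [h1]
        linarith only [he1', hs2, haN, hk1']
      exact_mod_cast this)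
    (by
      have h1 : a * N ≤ N := mul_le_of_le_one_left hN0'.le ha1
      have h2 : (2 * e : ℝ) ≤ n1 := by
        rw [hn1']
        have h3 : (e : ℝ) * 64 ≤ e * (64 * k) := by
          have : (e : ℝ) * 64 * 1 ≤ e * 64 * k :=
            mul_le_mul_of_nonneg_left hk1' (by positivity)
          linarith only [this]
        have h4 : (4 * N : ℝ) ≤ 4 * N * (q + c * (k : ℝ) ^ 2) :=
          le_mul_of_one_le_right (by positivity) hck
        have h5 : (0 : ℝ) ≤ e := Nat.cast_nonneg _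
        linarith only [h1, he1', h3, h4, h5, hN1']
      exact_mod_cast h2)
    (by
      rw [hn1]
      have h1 : c * N * k * k ≤ c * N * k * k := le_rfl
      have h2 : 2 * k ≤ 2 * (c * N * k) * k := by
        have := Nat.mul_le_mul_right (2 * k) hckN
        calc 2 * k = 1 * (2 * k) := by ring
          _ ≤ c * N * k * (2 * k) := this
          _ = 2 * (c * N * k) * k := by ring
      calc 2 * (2 * N * q + (c * N * k + 1) * k)
          = 4 * N * q + 2 * (c * N * k) * k + 2 * k := by ring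
        _ ≤ 4 * N * q + 2 * (c * N * k) * k + 2 * (c * N * k) * k := by omega
        _ = 4 * N * (q + c * k ^ 2) := by ring)
  refine ⟨c * N * k, by positivity, ?_, G, hG1, ?_⟩
  · push_cast
    have h1 : (c : ℝ) * N * k ≤ c * N * (3 / ε) :=
      mul_le_mul_of_nonneg_left hk3 (by positivity)
    refine h1.trans ?_
    have h2 : (c : ℝ) * N * (3 / ε) = 3 * c / ε * N := by ring
    rw [h2]
    apply mul_le_mul_of_nonneg_right _ hN0'.le
    apply div_le_div_of_nonneg_right _ hε.le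
    have h3 : (c : ℝ) ≤ n := by
      exact_mod_cast (by omega : c ≤ n)
    linarith only [h3]
  · intro F _ S hS
    obtain ⟨⟨m, hm, hmd⟩, hexp⟩ := hG2 F S hS
    have h0 : X⁻¹ * N ≤ a / (128 * k) * N := mul_le_mul_of_nonneg_right hAa hN0'.le
    have h0' : a / (128 * k) * N = a * N / (128 * k) := by ring
    refine ⟨⟨m, hm, ?_⟩, ?_⟩
    · have h1 : (e : ℝ) ≤ m.degree := by exact_mod_cast (by omega : e ≤ m.degree)
      linarith only [h0, h0', he3, h1]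
    · refine le_trans ?_ hexp
      rw [Real.rpow_def_of_pos (by norm_num : (0 : ℝ) < 2)]
      apply Real.exp_le_exp.2
      have h1 : Real.log 2 * (X⁻¹ * N) ≤ X⁻¹ * N :=
        mul_le_of_le_one_left (mul_nonneg (inv_nonneg.2 hX0.le) hN0'.le) hlog
      have h2 : X⁻¹ * N ≤ a ^ 2 / D0 * N := mul_le_mul_of_nonneg_right hA hN0'.le
      refine (h1.trans h2).trans ?_
      have h3 : (a * N / (128 * k)) ^ 2 ≤ (e : ℝ) ^ 2 := pow_le_pow_left₀ (by positivity) he3 2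
      have hn1pos : (0 : ℝ) < n1 := by rw [hn1']; positivity
      rw [le_div_iff₀ hn1pos]
      have h4 : a ^ 2 / D0 * N * n1 = 4 * (a * N / (128 * k)) ^ 2 := by
        rw [hn1', hD0]
        field_simp
        ring
      rw [h4]
      linarith only [h3]

end Pool.Agent.Results.MP_325f1f_lc.PolynomialCalculus
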