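import Pool.Agent.W906.SE.Main
import Pool.Agent.W906.SE.Params

/-!
# Unique games at every completeness have subexponential sum-of-squares rounding

For every completeness `c > 0` (not only `c` close to one) and every exponent `β > 0` there is a
soundness `δ > 0`, independent of the alphabet, such that the sum-of-squares relaxation of degree
`K n ^ β` of a unique game on `n` vertices has value less than `c` unless some labelling satisfies
a fraction `δ` of the constraints; the same for constraints in which every label of one end is
compatible with at most `d` labels of the other end (`d = 1`: unique games).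

The proof decomposes ALL edges of the constraint graph, up to a small fraction, into pieces of
few scales: in every piece no small set of vertices has noticeable non-expansion, and every vertex
lies in few pieces (`Pool/Agent/W906/SE`).
-/

namespace Pool.Agent.Results.MP_325f1f_lc.SosEveryCompleteness

open Finset

/-- The span of the real functions of a labelling `x : V → A` that depend on at most `D` of the
labels `x v`. -/
def LowDegree (V A : Type) (D : ℕ) : Submodule ℝ ((V → A) → ℝ) :=
  Submodule.span ℝ {f | ∃ S : Finset V, S.card ≤ D ∧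
    ∀ x y : V → A, (∀ v ∈ S, x v = y v) → f x = f y}

/-- `L` is a pseudo-expectation on labellings: a normalised linear functional which is nonnegative
on the squares of all functions in `LowDegree V A D` (a solution of the sum-of-squares, or
Lasserre, relaxation of degree `2 D`). -/
def IsPseudoExpectation {V A : Type} (D : ℕ) (L : ((V → A) → ℝ) →ₗ[ℝ] ℝ) : Prop :=
  L (fun _ => 1) = 1 ∧ ∀ f ∈ LowDegree V A D, 0 ≤ L (fun x => f x ^ 2)

/-- Every label of one end of the constraint `R` is compatible with at most `d` labels of the other
end. For `d = 1` this is a unique constraint, for example `R = {(a, π a)}` with a permutation `π`. -/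
def DegreeAtMost {A : Type} [DecidableEq A] (d : ℕ) (R : Finset (A × A)) : Prop :=
  (∀ a, (R.filter fun p => p.1 = a).card ≤ d) ∧ ∀ b, (R.filter fun p => p.2 = b).card ≤ d

/-- Let `0 < c ≤ 1` and `0 < β ≤ 1`. Consider an instance with vertices `V`, labels `A` and
constraints `R e` of degree at most `d` on the edges `e`. If the relaxation of degree
`D ≥ (2 d / (c β)) ^ (300 / β) * |V| ^ β` has value at least `c`, then some labelling satisfies at
least a fraction `(c β / (2 d)) ^ (1500 / β ^ 2)` of the constraints. -/
theorem result (d : ℕ) (c β : ℝ) (hd : 1 ≤ d) (hc : 0 < c) (hc1 : c ≤ 1) (hβ : 0 < β)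
    (hβ1 : β ≤ 1) (V A E : Type) [Fintype V] [Fintype A] [DecidableEq A] [Fintype E]
    (s t : E → V) (R : E → Finset (A × A)) (hR : ∀ e, DegreeAtMost d (R e)) (D : ℕ)
    (hD : (2 * d / (c * β)) ^ (300 / β) * (Fintype.card V : ℝ) ^ β ≤ D)
    (L : ((V → A) → ℝ) →ₗ[ℝ] ℝ) (hL : IsPseudoExpectation D L)
    (hval : c * (Fintype.card E : ℝ)
      ≤ ∑ e, L (fun x => if (x (s e), x (t e)) ∈ R e then 1 else 0)) :
    ∃ x : V → A, (c * β / (2 * d)) ^ (1500 / β ^ 2) * (Fintype.card E : ℝ)
      ≤ ((univ.filter fun e => (x (s e), x (t e)) ∈ R e).card : ℝ) := by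
  classical
  have hPE : Pool.Agent.H647R3.UG.IsPE D L := by
    refine ⟨hL.1, fun f hf => ?_⟩
    have h1 := hL.2 f hf
    have h2 : (fun x => f x ^ 2) = fun x : V → A => f x * f x := by
      funext x; ring
    rw [h2] at h1
    exact h1
  rcases Nat.eq_zero_or_pos (Fintype.card V) with h0 | h0
  · have hV : IsEmpty V := Fintype.card_eq_zero_iff.1 h0
    have hE : Fintype.card E = 0 := by
      rw [Fintype.card_eq_zero_iff]
      exact ⟨fun e => hV.false (s e)⟩
    refine ⟨fun v => (hV.false v).elim, ?_⟩
    rw [hE]
    simp
  · obtain ⟨κ, Rr, c0, i, k, N, J, h1, h2, h3, h4, h5, h6, h7, h8, h9, h10, h11, h12⟩ :=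
      Pool.Agent.W906.SE.exists_params d (Fintype.card V) hd h0 c β hc hc1 hβ hβ1 D hD
    obtain ⟨x, hx⟩ := Pool.Agent.W906.SE.main_param s t R d hd hR L D hPE κ Rr c c0 h1 h2 h3 h4 h5
      i h6 k h7 h8 N h9 J h10 h11 hval
    exact ⟨x, (mul_le_mul_of_nonneg_right h12 (Nat.cast_nonneg _)).trans hx⟩

end Pool.Agent.Results.MP_325f1f_lc.SosEveryCompleteness
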